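import Mathlib

/-! # The sequence `b` (independence weights of paths) -/

set_option autoImplicit false

namespace HL274

/-- `b 0 = b 1 = 1`, `b (n+2) = b (n+1) + s * b n`: weights of paths. -/
def b (s : ℕ) : ℕ → ℕ
  | 0 => 1
  | 1 => 1
  | (n+2) => b s (n+1) + s * b s n

@[simp] lemma b_zero (s : ℕ) : b s 0 = 1 := rfl
@[simp] lemma b_one (s : ℕ) : b s 1 = 1 := rfl
lemma b_add_two (s n : ℕ) : b s (n+2) = b s (n+1) + s * b s n := rfl

lemma b_pos (s : ℕ) : ∀ n, 1 ≤ b s n
  | 0 => le_refl _
  | 1 => le_refl _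
  | (n+2) => by
      rw [b_add_two]
      have := b_pos s (n+1)
      omega

lemma b_mono_succ (s : ℕ) : ∀ n, b s n ≤ b s (n+1)
  | 0 => le_refl _
  | (n+1) => by
      rw [b_add_two]
      omega

lemma b_identity (s : ℕ) (i : ℕ) : ∀ j,
    b s (i+2) * b s (j+2) = b s (i+j+3) + s^2 * (b s i * b s j) ∧
    b s (i+2) * b s (j+3) = b s (i+j+4) + s^2 * (b s i * b s (j+1))
  | 0 => by
      constructor
      · have h3 : b s (i+0+3) = b s (i+2) + s * b s (i+1) := b_add_two s (i+1)
        rw [h3]
        have h2 : b s (0+2) = 1 + s := by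
          rw [b_add_two]; simp
        rw [h2, b_add_two s i]
        simp
        ring
      · have h3 : b s (i+0+4) = b s (i+3) + s * b s (i+2) := b_add_two s (i+2)
        have h4 : b s (i+3) = b s (i+2) + s * b s (i+1) := b_add_two s (i+1)
        rw [h3, h4]
        have h2 : b s (0+3) = 1 + s + s := by
          have : b s (0+3) = b s 2 + s * b s 1 := b_add_two s 1
          rw [this]
          have : b s 2 = b s 1 + s * b s 0 := b_add_two s 0
          rw [this]; simp
        rw [h2, b_add_two s i]
        simp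
        ring
  | (j+1) => by
      obtain ⟨h1, h2⟩ := b_identity s i j
      refine ⟨h2, ?_⟩
      have e1 : b s (j+1+3) = b s (j+3) + s * b s (j+2) := b_add_two s (j+2)
      have e2 : b s (i+(j+1)+4) = b s (i+j+4) + s * b s (i+j+3) := b_add_two s (i+j+3)
      have e3 : b s (j+1+1) = b s (j+1) + s * b s j := b_add_two s j
      have e4 : b s (i+2) * (s * b s (j+2)) = s * (b s (i+2) * b s (j+2)) := by ring
      rw [e1, e2, mul_add, h2, e4, h1, e3]
      ring

lemma b_mul (s i j : ℕ) :
    b s (i+2) * b s (j+2) = b s (i+j+3) + s^2 * (b s i * b s j) := (b_identity s i j).1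

lemma b_lower (s l : ℕ) (hl : l * l = l + s) (hl1 : 1 ≤ l) : ∀ n, l^n ≤ l * b s n
  | 0 => by simp; exact hl1
  | 1 => by simp
  | (n+2) => by
      have h1 := b_lower s l hl hl1 (n+1)
      have h2 := b_lower s l hl hl1 n
      rw [b_add_two]
      calc l^(n+2) = l^n * (l*l) := by ring
        _ = l^(n+1) + s * l^n := by rw [hl]; ring
        _ ≤ l * b s (n+1) + s * (l * b s n) := by
            apply add_le_add h1
            exact Nat.mul_le_mul_left _ h2
        _ = l * (b s (n+1) + s * b s n) := by ring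

end HL274
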