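import Pool.Agent.HL274.A1

/-! # Weighted independent sets -/

set_option autoImplicit false

namespace HL274

open Finset Classical

variable {V : Type*}

/-- independent finset -/
def Indep (G : SimpleGraph V) (S : Finset V) : Prop := ∀ u ∈ S, ∀ v ∈ S, ¬ G.Adj u v

/-- weighted count of independent subsets of `A`. -/
noncomputable def IS (G : SimpleGraph V) (s : ℕ) (A : Finset V) : ℕ :=
  ∑ S ∈ A.powerset, if Indep G S then s ^ S.card else 0

lemma IS_empty (G : SimpleGraph V) (s : ℕ) : IS G s ∅ = 1 := by
  simp [IS, Indep]

/-- The neighbours of `v` inside `A`. -/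
noncomputable def nb (G : SimpleGraph V) (A : Finset V) (v : V) : Finset V := A.filter (G.Adj v)

lemma mem_nb {G : SimpleGraph V} {A : Finset V} {v x : V} : x ∈ nb G A v ↔ x ∈ A ∧ G.Adj v x := by
  simp [nb]

lemma IS_rec (G : SimpleGraph V) (s : ℕ) (A : Finset V) (v : V) (hv : v ∈ A) :
    IS G s A = IS G s (A.erase v) + s * IS G s ((A.erase v) \ nb G A v) := by
  have hA : A = insert v (A.erase v) := (insert_erase hv).symm
  have hnot : v ∉ A.erase v := notMem_erase v A
  conv_lhs => rw [IS, hA]
  rw [Finset.sum_powerset_insert hnot]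
  congr 1
  rw [IS, Finset.mul_sum]
  symm
  have hsub : ((A.erase v) \ nb G A v).powerset ⊆ (A.erase v).powerset :=
    powerset_mono.mpr sdiff_subset
  rw [← Finset.sum_subset hsub (f := fun S => if Indep G (insert v S) then s ^ (insert v S).card else 0)]
  · apply Finset.sum_congr rfl
    intro S hS
    rw [mem_powerset] at hS
    have hvS : v ∉ S := fun h => hnot (sdiff_subset (hS h))
    have hiff : Indep G (insert v S) ↔ Indep G S := by
      constructor
      · intro h u hu w hw
        exact h u (mem_insert_of_mem hu) w (mem_insert_of_mem hw)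
      · intro h u hu w hw
        have key : ∀ x ∈ S, ¬ G.Adj v x := by
          intro x hx hadj
          have h1 := hS hx
          rw [mem_sdiff] at h1
          exact h1.2 (mem_nb.mpr ⟨mem_of_mem_erase h1.1, hadj⟩)
        rcases mem_insert.mp hu with rfl | hu'
        · rcases mem_insert.mp hw with rfl | hw'
          · exact G.loopless.irrefl _
          · exact key w hw'
        · rcases mem_insert.mp hw with rfl | hw'
          · intro hadj
            exact key u hu' hadj.symm
          · exact h u hu' w hw'
    simp only [hiff, card_insert_of_notMem hvS]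
    split_ifs
    · rw [pow_succ]; ring
    · simp
  · intro S hS hS'
    rw [mem_powerset] at hS
    rw [mem_powerset] at hS'
    rw [if_neg]
    intro h
    apply hS'
    intro x hx
    rw [mem_sdiff]
    refine ⟨hS hx, ?_⟩
    intro hx'
    exact h v (mem_insert_self _ _) x (mem_insert_of_mem hx) (mem_nb.mp hx').2

lemma IS_rec0 (G : SimpleGraph V) (s : ℕ) (A : Finset V) (v : V) (hv : v ∈ A)
    (h0 : nb G A v = ∅) :
    IS G s A = (1 + s) * IS G s (A.erase v) := by
  rw [IS_rec G s A v hv, h0, sdiff_empty]
  ring

lemma IS_rec1 (G : SimpleGraph V) (s : ℕ) (A : Finset V) (v u : V) (hv : v ∈ A)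
    (h1 : nb G A v = {u}) :
    IS G s A = IS G s (A.erase v) + s * IS G s ((A.erase v).erase u) := by
  rw [IS_rec G s A v hv, h1, sdiff_singleton_eq_erase]

end HL274
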