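import Pool.Agent.HL274.A2

/-! # Leaves and the basic lower bounds -/

set_option autoImplicit false

namespace HL274

open Finset Classical

variable {V : Type*}

/-- In an acyclic graph every nonempty finite set has a vertex with at most one neighbour in it. -/
lemma exists_leaf (G : SimpleGraph V) (hG : G.IsAcyclic) (B : Finset V) (hB : B.Nonempty) :
    ∃ v ∈ B, (nb G B v).card ≤ 1 := by
  obtain ⟨x, hx⟩ := hB
  have : Nonempty B := ⟨⟨x, hx⟩⟩
  set G' : SimpleGraph B := G.comap (fun y : B => (y : V)) with hG'
  have hac : G'.IsAcyclic := by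
    apply SimpleGraph.IsAcyclic.of_comap (Function.Embedding.subtype (fun y => y ∈ B)) hG
  obtain ⟨T, hT1, -, hT3⟩ := (SimpleGraph.connected_top (V := B)).exists_isTree_le_of_le_of_isAcyclic
    (le_top : G' ≤ ⊤) hac
  rcases subsingleton_or_nontrivial B with hs | hn
  · refine ⟨x, hx, ?_⟩
    have : nb G B x = ∅ := by
      apply Finset.eq_empty_of_forall_notMem
      intro y hy
      rw [mem_nb] at hy
      have : (⟨y, hy.1⟩ : B) = ⟨x, hx⟩ := Subsingleton.elim _ _
      have h2 : y = x := congrArg Subtype.val this
      rw [h2] at hy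
      exact G.loopless.irrefl _ hy.2
    rw [this]; simp
  · obtain ⟨v, hv⟩ := hT3.exists_vert_degree_one_of_nontrivial
    refine ⟨v, v.2, ?_⟩
    rw [← hv, ← SimpleGraph.card_neighborFinset_eq_degree]
    have hinj : Set.InjOn (Subtype.val : B → V) (T.neighborFinset v : Set B) :=
      Subtype.val_injective.injOn
    rw [← Finset.card_image_of_injOn hinj]
    apply Finset.card_le_card
    intro y hy
    rw [mem_nb] at hy
    rw [mem_image]
    refine ⟨⟨y, hy.1⟩, ?_, rfl⟩
    rw [SimpleGraph.mem_neighborFinset]
    apply hT1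
    exact hy.2

lemma nb_mono {G : SimpleGraph V} {A B : Finset V} (h : A ⊆ B) (v : V) : nb G A v ⊆ nb G B v := by
  intro x hx
  rw [mem_nb] at hx ⊢
  exact ⟨h hx.1, hx.2⟩

lemma nb_cases {G : SimpleGraph V} {A : Finset V} {v : V} (h : (nb G A v).card ≤ 1) :
    nb G A v = ∅ ∨ ∃ u, nb G A v = {u} := by
  rcases Nat.lt_or_ge (nb G A v).card 1 with h1 | h1
  · left
    rw [← Finset.card_eq_zero]; omega
  · right
    rw [← Finset.card_eq_one]; omega

/-- Key multiplicative lower bound. -/
lemma L0 (G : SimpleGraph V) (hG : G.IsAcyclic) (s : ℕ) (C : Finset V) :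
    ∀ (k : ℕ) (B : Finset V), B.card = k → Disjoint B C → (∀ x ∈ B, ∀ y ∈ C, ¬ G.Adj x y) →
      b s (k+1) * IS G s C ≤ IS G s (B ∪ C) := by
  intro k
  induction k using Nat.strong_induction_on with
  | _ k ih =>
    intro B hBk hd hno
    rcases B.eq_empty_or_nonempty with rfl | hne
    · simp at hBk
      subst hBk
      simp
    · obtain ⟨v, hvB, hv1⟩ := exists_leaf G hG B hne
      have hkpos : 1 ≤ k := by
        rw [← hBk]; exact Finset.card_pos.mpr hne
      have hvC : v ∉ C := fun h => (Finset.disjoint_left.mp hd) hvB h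
      have hnb : nb G (B ∪ C) v = nb G B v := by
        ext x
        rw [mem_nb, mem_nb, mem_union]
        constructor
        · rintro ⟨h1 | h1, h2⟩
          · exact ⟨h1, h2⟩
          · exact absurd h2 (hno v hvB x h1)
        · rintro ⟨h1, h2⟩
          exact ⟨Or.inl h1, h2⟩
      have hmem : v ∈ B ∪ C := mem_union_left _ hvB
      have her : (B ∪ C).erase v = B.erase v ∪ C := by
        rw [erase_union_distrib, erase_eq_of_notMem hvC]
      have hc1 : (B.erase v).card = k - 1 := by rw [card_erase_of_mem hvB, hBk]
      have hd1 : Disjoint (B.erase v) C := hd.mono_left (erase_subset _ _)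
      have hno1 : ∀ x ∈ B.erase v, ∀ y ∈ C, ¬ G.Adj x y :=
        fun x hx y hy => hno x (mem_of_mem_erase hx) y hy
      have ih1 := ih (k-1) (by omega) (B.erase v) hc1 hd1 hno1
      have hk1 : k - 1 + 1 = k := by omega
      rw [hk1] at ih1
      rcases nb_cases hv1 with h0 | ⟨u, hu⟩
      · rw [IS_rec0 G s _ v hmem (by rw [hnb, h0]), her]
        have hb : b s (k+1) ≤ (1+s) * b s k := by
          obtain ⟨j, rfl⟩ : ∃ j, k = j + 1 := ⟨k-1, by omega⟩
          have e1 : b s (j+1+1) = b s (j+1) + s * b s j := b_add_two s j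
          rw [e1, add_mul, one_mul]
          apply Nat.add_le_add_left
          exact Nat.mul_le_mul_left _ (b_mono_succ s j)
        calc b s (k+1) * IS G s C ≤ (1+s) * b s k * IS G s C := Nat.mul_le_mul_right _ hb
          _ = (1+s) * (b s k * IS G s C) := by ring
          _ ≤ (1+s) * IS G s (B.erase v ∪ C) := Nat.mul_le_mul_left _ ih1
      · have huB : u ∈ B := by
          have : u ∈ nb G B v := by rw [hu]; exact mem_singleton_self u
          exact (mem_nb.mp this).1
        have hvu : u ≠ v := by
          intro h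
          have : u ∈ nb G B v := by rw [hu]; exact mem_singleton_self u
          have := (mem_nb.mp this).2
          rw [h] at this
          exact G.loopless.irrefl _ this
        have huC : u ∉ C := fun h => (Finset.disjoint_left.mp hd) huB h
        have hu' : u ∈ B.erase v := mem_erase.mpr ⟨hvu, huB⟩
        have hc2 : ((B.erase v).erase u).card = k - 2 := by
          rw [card_erase_of_mem hu', hc1]; omega
        have hk2 : 2 ≤ k := by
          have : 1 ≤ (B.erase v).card := Finset.card_pos.mpr ⟨u, hu'⟩
          omega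
        have ih2 := ih (k-2) (by omega) ((B.erase v).erase u) hc2
          (hd1.mono_left (erase_subset _ _))
          (fun x hx y hy => hno1 x (mem_of_mem_erase hx) y hy)
        rw [IS_rec1 G s _ v u hmem (by rw [hnb, hu]), her]
        have her2 : (B.erase v ∪ C).erase u = (B.erase v).erase u ∪ C := by
          rw [erase_union_distrib, erase_eq_of_notMem huC]
        rw [her2]
        have e1 : b s (k+1) = b s k + s * b s (k-2+1) := by
          obtain ⟨j, rfl⟩ : ∃ j, k = j + 2 := ⟨k-2, by omega⟩
          have : j + 2 - 2 + 1 = j + 1 := by omega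
          rw [this]
          exact b_add_two s (j+1)
        rw [e1, add_mul]
        apply add_le_add ih1
        calc s * b s (k-2+1) * IS G s C = s * (b s (k-2+1) * IS G s C) := by ring
          _ ≤ _ := Nat.mul_le_mul_left _ ih2

lemma L1 (G : SimpleGraph V) (hG : G.IsAcyclic) (s : ℕ) (B : Finset V) :
    b s (B.card+1) ≤ IS G s B := by
  have := L0 G hG s ∅ B.card B rfl (disjoint_empty_right _) (by simp)
  simpa [IS_empty] using this

end HL274
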