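import Pool.Agent.HL274.A3

/-! # Forests with a vertex of degree at least three -/

set_option autoImplicit false

namespace HL274

open Finset Classical

variable {V : Type*}

lemma split (G : SimpleGraph V) (hG : G.IsAcyclic) (u y1 y2 : V) (h1 : G.Adj u y1)
    (h2 : G.Adj u y2) (hne : y1 ≠ y2) (W : Finset V) (hu : u ∉ W) (hy1 : y1 ∈ W) (hy2 : y2 ∈ W) :
    ∃ B C : Finset V, B ∪ C = W ∧ Disjoint B C ∧ y1 ∈ B ∧ y2 ∈ C ∧
      ∀ x ∈ B, ∀ y ∈ C, ¬ G.Adj x y := by
  set G' := G.deleteEdges {s(u, y1)} with hG'
  have hbr : ¬ G'.Reachable u y1 := by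
    have := (SimpleGraph.isAcyclic_iff_forall_adj_isBridge.mp hG) h1
    rwa [SimpleGraph.isBridge_iff] at this
  refine ⟨W.filter (fun x => G'.Reachable y1 x), W.filter (fun x => ¬ G'.Reachable y1 x),
    filter_union_filter_not_eq _ _, disjoint_filter_filter_not _ _ _, ?_, ?_, ?_⟩
  · rw [mem_filter]
    exact ⟨hy1, SimpleGraph.Reachable.refl _⟩
  · rw [mem_filter]
    refine ⟨hy2, fun hr => hbr ?_⟩
    have hadj : G'.Adj u y2 := by
      rw [hG', SimpleGraph.deleteEdges_adj]
      refine ⟨h2, ?_⟩
      rw [Set.mem_singleton_iff, Sym2.eq_iff]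
      rintro (⟨-, h⟩ | ⟨h, -⟩)
      · exact hne h.symm
      · exact h1.ne h
    exact (hadj.reachable).trans hr.symm
  · intro x hx y hy hadj
    rw [mem_filter] at hx hy
    apply hy.2
    have hadj' : G'.Adj x y := by
      rw [hG', SimpleGraph.deleteEdges_adj]
      refine ⟨hadj, ?_⟩
      rw [Set.mem_singleton_iff, Sym2.eq_iff]
      rintro (⟨h, -⟩ | ⟨-, h⟩)
      · exact hu (h ▸ hx.1)
      · exact hu (h ▸ hy.1)
    exact hx.2.trans hadj'.reachable

lemma case1 (G : SimpleGraph V) (hG : G.IsAcyclic) (s l : ℕ) (hl : l * l = l + s) (hl1 : 1 ≤ l)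
    (A : Finset V) (v u : V) (hv : v ∈ A) (hvu : nb G A v = {u}) (h3 : 3 ≤ (nb G A u).card) :
    l^7 * b s (A.card + 1) + s^3 * l^(A.card + 1) ≤ l^7 * IS G s A := by
  have hu : u ∈ nb G A v := by rw [hvu]; exact mem_singleton_self u
  rw [mem_nb] at hu
  have huv : u ≠ v := fun h => by
    rw [h] at hu; exact G.loopless.irrefl _ hu.2
  -- two further neighbours
  have hc : 1 < ((nb G A u).erase v).card := by
    have := Finset.pred_card_le_card_erase (s := nb G A u) (a := v)
    omega
  obtain ⟨y1, hy1, y2, hy2, hne⟩ := Finset.one_lt_card.mp hc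
  rw [mem_erase, mem_nb] at hy1 hy2
  set W := (A.erase v).erase u with hW
  have huA : u ∈ A.erase v := mem_erase.mpr ⟨huv, hu.1⟩
  have huW : u ∉ W := notMem_erase _ _
  have hy1W : y1 ∈ W := by
    rw [hW, mem_erase, mem_erase]
    exact ⟨fun h => by rw [h] at hy1; exact G.loopless.irrefl _ hy1.2.2, hy1.1, hy1.2.1⟩
  have hy2W : y2 ∈ W := by
    rw [hW, mem_erase, mem_erase]
    exact ⟨fun h => by rw [h] at hy2; exact G.loopless.irrefl _ hy2.2.2, hy2.1, hy2.2.1⟩
  obtain ⟨B, C, hBC, hd, hB1, hC2, hno⟩ :=
    split G hG u y1 y2 hy1.2.2 hy2.2.2 hne W huW hy1W hy2W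
  have hWc : W.card = A.card - 1 - 1 := by
    rw [hW, card_erase_of_mem huA, card_erase_of_mem hv]
  have hBpos : 1 ≤ B.card := Finset.card_pos.mpr ⟨y1, hB1⟩
  have hCpos : 1 ≤ C.card := Finset.card_pos.mpr ⟨y2, hC2⟩
  have hsum : B.card + C.card = W.card := by
    rw [← hBC, card_union_of_disjoint hd]
  obtain ⟨i, hi⟩ : ∃ i, B.card = i + 1 := ⟨B.card - 1, by omega⟩
  obtain ⟨j, hj⟩ : ∃ j, C.card = j + 1 := ⟨C.card - 1, by omega⟩
  have hn : A.card = i + j + 4 := by omega
  have e1 : IS G s A = IS G s (A.erase v) + s * IS G s W := IS_rec1 G s A v u hv hvu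
  have e2 : b s (i+j+4) ≤ IS G s (A.erase v) := by
    have := L1 G hG s (A.erase v)
    rw [card_erase_of_mem hv, hn] at this
    exact this
  have e3 : b s (i+2) * b s (j+2) ≤ IS G s W := by
    have h1 := L0 G hG s C B.card B rfl hd hno
    rw [hBC, hi] at h1
    have h2 := L1 G hG s C
    rw [hj] at h2
    calc b s (i+2) * b s (j+2) ≤ b s (i+2) * IS G s C := Nat.mul_le_mul_left _ h2
      _ ≤ IS G s W := h1
  rw [b_mul] at e3
  have e4 : b s (i+j+5) = b s (i+j+4) + s * b s (i+j+3) := b_add_two s (i+j+3)
  have e5 : b s (i+j+5) + s^3 * (b s i * b s j) ≤ IS G s A := by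
    rw [e1, e4]
    calc b s (i+j+4) + s * b s (i+j+3) + s^3 * (b s i * b s j)
        = b s (i+j+4) + s * (b s (i+j+3) + s^2 * (b s i * b s j)) := by ring
      _ ≤ IS G s (A.erase v) + s * IS G s W :=
        add_le_add e2 (Nat.mul_le_mul_left _ e3)
  have e6 : l^(i+j) ≤ l^2 * (b s i * b s j) := by
    calc l^(i+j) = l^i * l^j := pow_add _ _ _
      _ ≤ (l * b s i) * (l * b s j) := Nat.mul_le_mul (b_lower s l hl hl1 i) (b_lower s l hl hl1 j)
      _ = l^2 * (b s i * b s j) := by ring
  rw [hn]
  calc l^7 * b s (i+j+4+1) + s^3 * l^(i+j+4+1)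
      = l^7 * b s (i+j+5) + s^3 * l^5 * l^(i+j) := by
        rw [show i+j+4+1 = (i+j) + 5 from rfl, pow_add]; ring
    _ ≤ l^7 * b s (i+j+5) + s^3 * l^5 * (l^2 * (b s i * b s j)) :=
        Nat.add_le_add_left (Nat.mul_le_mul_left _ e6) _
    _ = l^7 * (b s (i+j+5) + s^3 * (b s i * b s j)) := by ring
    _ ≤ l^7 * IS G s A := Nat.mul_le_mul_left _ e5

lemma Q (G : SimpleGraph V) (hG : G.IsAcyclic) (s l : ℕ) (hl : l * l = l + s) (hl1 : 1 ≤ l)
    (w : V) : ∀ (k : ℕ) (A : Finset V), A.card = k → w ∈ A → 3 ≤ (nb G A w).card →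
    l^7 * b s (A.card + 1) + s^3 * l^(A.card) ≤ l^7 * IS G s A := by
  intro k
  induction k using Nat.strong_induction_on with
  | _ k ih =>
    intro A hAk hw h3
    obtain ⟨v, hv, hv1⟩ := exists_leaf G hG A ⟨w, hw⟩
    have hvw : v ≠ w := by
      rintro rfl; omega
    have hkpos : 1 ≤ k := by rw [← hAk]; exact Finset.card_pos.mpr ⟨w, hw⟩
    have hc1 : (A.erase v).card = k - 1 := by rw [card_erase_of_mem hv, hAk]
    have hw1 : w ∈ A.erase v := mem_erase.mpr ⟨hvw.symm, hw⟩
    have hnbw : ∀ (A' : Finset V), (∀ x ∈ nb G A w, x ∈ A') → A' ⊆ A → nb G A' w = nb G A w := by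
      intro A' h1 h2
      apply Finset.Subset.antisymm (nb_mono h2 w)
      intro x hx
      rw [mem_nb]
      exact ⟨h1 x hx, (mem_nb.mp hx).2⟩
    have h4 : 3 < k + 0 := by
      have h5 : nb G A w ⊆ A.erase w := by
        intro x hx
        rw [mem_nb] at hx
        rw [mem_erase]
        exact ⟨fun h => by rw [h] at hx; exact G.loopless.irrefl _ hx.2, hx.1⟩
      have := Finset.card_le_card h5
      rw [card_erase_of_mem hw] at this
      omega
    rcases nb_cases hv1 with h0 | ⟨u, hu⟩
    · -- isolated vertex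
      have hnv : ∀ x ∈ nb G A w, x ∈ A.erase v := by
        intro x hx
        rw [mem_nb] at hx
        rw [mem_erase]
        refine ⟨?_, hx.1⟩
        rintro rfl
        have : w ∈ nb G A x := mem_nb.mpr ⟨hw, hx.2.symm⟩
        rw [h0] at this
        simp at this
      have ih1 := ih (k-1) (by omega) (A.erase v) hc1 hw1
        (by rw [hnbw _ hnv (erase_subset _ _)]; exact h3)
      rw [hc1] at ih1
      rw [IS_rec0 G s A v hv h0, hAk]
      obtain ⟨j, rfl⟩ : ∃ j, k = j + 1 := ⟨k-1, by omega⟩
      have hjj : j + 1 - 1 = j := by omega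
      rw [hjj] at ih1
      have hb : b s (j+1+1) ≤ (1+s) * b s (j+1) := by
        have e1 : b s (j+1+1) = b s (j+1) + s * b s j := b_add_two s j
        rw [e1, add_mul, one_mul]
        apply Nat.add_le_add_left
        exact Nat.mul_le_mul_left _ (b_mono_succ s j)
      have hls : l ≤ 1 + s := by nlinarith
      calc l^7 * b s (j+1+1) + s^3 * l^(j+1)
          ≤ l^7 * ((1+s) * b s (j+1)) + s^3 * ((1+s) * l^j) := by
            apply add_le_add
            · exact Nat.mul_le_mul_left _ hb
            · apply Nat.mul_le_mul_left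
              rw [pow_succ, mul_comm]
              exact Nat.mul_le_mul_right _ hls
        _ = (1+s) * (l^7 * b s (j+1) + s^3 * l^j) := by ring
        _ ≤ (1+s) * (l^7 * IS G s (A.erase v)) := Nat.mul_le_mul_left _ ih1
        _ = _ := by ring
    · have huA : u ∈ nb G A v := by rw [hu]; exact mem_singleton_self u
      rw [mem_nb] at huA
      have huv : u ≠ v := fun h => by
        rw [h] at huA; exact G.loopless.irrefl _ huA.2
      by_cases hdu : 3 ≤ (nb G A u).card
      · have := case1 G hG s l hl hl1 A v u hv hu hdu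
        refine le_trans ?_ this
        apply Nat.add_le_add_left
        apply Nat.mul_le_mul_left
        exact Nat.pow_le_pow_right hl1 (by omega)
      · have hwu : w ≠ u := by
          rintro rfl; exact hdu h3
        have hvw' : ¬ G.Adj v w := by
          intro h
          have : w ∈ nb G A v := mem_nb.mpr ⟨hw, h⟩
          rw [hu, mem_singleton] at this
          exact hwu this
        have hnv : ∀ x ∈ nb G A w, x ∈ A.erase v := by
          intro x hx
          rw [mem_nb] at hx
          rw [mem_erase]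
          refine ⟨?_, hx.1⟩
          rintro rfl
          exact hvw' hx.2.symm
        have hnb1 := hnbw _ hnv (erase_subset _ _)
        have hu1 : u ∈ A.erase v := mem_erase.mpr ⟨huv, huA.1⟩
        have hc2 : ((A.erase v).erase u).card = k - 2 := by
          rw [card_erase_of_mem hu1, hc1]; omega
        have hISrec := IS_rec1 G s A v u hv hu
        obtain ⟨j, rfl⟩ : ∃ j, k = j + 2 := ⟨k-2, by omega⟩
        have hj1 : j + 2 - 1 = j + 1 := by omega
        have hj2 : j + 2 - 2 = j := by omega
        rw [hj1] at hc1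
        rw [hj2] at hc2
        rw [hAk, hISrec]
        have eb : b s (j+2+1) = b s (j+2) + s * b s (j+1) := b_add_two s (j+1)
        by_cases hadj : G.Adj w u
        · -- u becomes a leaf attached to w after deleting v
          have hnu : nb G (A.erase v) u = {w} := by
            have hsub : {w} ⊆ nb G (A.erase v) u := by
              intro x hx
              rw [mem_singleton] at hx
              rw [hx, mem_nb]
              exact ⟨hw1, hadj.symm⟩
            apply (Finset.eq_of_subset_of_card_le hsub _).symm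
            have hlt : (nb G (A.erase v) u).card < (nb G A u).card := by
              apply Finset.card_lt_card
              refine ⟨nb_mono (erase_subset _ _) u, ?_⟩
              intro h
              have : v ∈ nb G A u := mem_nb.mpr ⟨hv, huA.2.symm⟩
              have := h this
              rw [mem_nb] at this
              exact notMem_erase _ _ this.1
            simp only [card_singleton]
            omega
          have hc := case1 G hG s l hl hl1 (A.erase v) u w hu1 hnu (by rw [hnb1]; exact h3)
          rw [hc1] at hc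
          have h2 := L1 G hG s ((A.erase v).erase u)
          rw [hc2] at h2
          calc l^7 * b s (j+2+1) + s^3 * l^(j+2)
              = (l^7 * b s (j+1+1) + s^3 * l^(j+1+1)) + l^7 * (s * b s (j+1)) := by
                rw [eb]; ring
            _ ≤ l^7 * IS G s (A.erase v) + l^7 * (s * IS G s ((A.erase v).erase u)) := by
                apply add_le_add hc
                apply Nat.mul_le_mul_left
                exact Nat.mul_le_mul_left _ h2
            _ = _ := by ring
        · have ih1 := ih (j+1) (by omega) (A.erase v) hc1 hw1 (by rw [hnb1]; exact h3)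
          have hw2 : w ∈ (A.erase v).erase u := mem_erase.mpr ⟨hwu, hw1⟩
          have hnu : ∀ x ∈ nb G A w, x ∈ (A.erase v).erase u := by
            intro x hx
            rw [mem_erase]
            refine ⟨?_, hnv x hx⟩
            rintro rfl
            exact hadj (mem_nb.mp hx).2
          have hnb2 := hnbw _ hnu ((erase_subset _ _).trans (erase_subset _ _))
          have ih2 := ih j (by omega) ((A.erase v).erase u) hc2 hw2 (by rw [hnb2]; exact h3)
          rw [hc1] at ih1
          rw [hc2] at ih2
          calc l^7 * b s (j+2+1) + s^3 * l^(j+2)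
              = (l^7 * b s (j+1+1) + s^3 * l^(j+1)) + s * (l^7 * b s (j+1) + s^3 * l^j) := by
                have : l^(j+2) = l^(j+1) + s * l^j := by
                  calc l^(j+2) = l^j * (l*l) := by ring
                    _ = l^(j+1) + s * l^j := by rw [hl]; ring
                rw [eb, this]; ring
            _ ≤ l^7 * IS G s (A.erase v) + s * (l^7 * IS G s ((A.erase v).erase u)) := by
                apply add_le_add ih1
                exact Nat.mul_le_mul_left _ ih2
            _ = _ := by ring

end HL274
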