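import Pool.Agent.HL274.A4

/-! # Linear forests -/

set_option autoImplicit false

namespace HL274

open Finset Classical

variable {V : Type*}

/-- A rank function on `A` along which edges join consecutive ranks. -/
lemma rank (G : SimpleGraph V) (hG : G.IsAcyclic) :
    ∀ (k : ℕ) (A : Finset V), A.card = k → (∀ u ∈ A, (nb G A u).card ≤ 2) →
      ∃ r : V → ℕ, (∀ x ∈ A, ∀ y ∈ A, r x = r y → x = y) ∧ (∀ x ∈ A, r x < k) ∧
        (∀ x ∈ A, ∀ y ∈ A, G.Adj x y → r x + 1 = r y ∨ r y + 1 = r x) := by
  intro k
  induction k with
  | zero =>
    intro A hA _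
    rw [Finset.card_eq_zero] at hA
    subst hA
    exact ⟨fun _ => 0, by simp, by simp, by simp⟩
  | succ k ih =>
    intro A hA hdeg
    have hne : A.Nonempty := by
      rw [← Finset.card_pos]; omega
    obtain ⟨v, hv, hv1⟩ := exists_leaf G hG A hne
    have hc1 : (A.erase v).card = k := by rw [card_erase_of_mem hv]; omega
    obtain ⟨r, hr1, hr2, hr3⟩ := ih (A.erase v) hc1 (fun u hu =>
      le_trans (Finset.card_le_card (nb_mono (erase_subset _ _) u)) (hdeg u (mem_of_mem_erase hu)))
    -- general insertion
    have key : ∀ p : ℕ, p ≤ k →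
        (∀ x ∈ A.erase v, ∀ y ∈ A.erase v, G.Adj x y → ¬ (r x + 1 = p ∧ r y = p)) →
        (∀ u ∈ A.erase v, G.Adj v u → r u = p ∨ r u + 1 = p) →
        ∃ r : V → ℕ, (∀ x ∈ A, ∀ y ∈ A, r x = r y → x = y) ∧ (∀ x ∈ A, r x < k + 1) ∧
          (∀ x ∈ A, ∀ y ∈ A, G.Adj x y → r x + 1 = r y ∨ r y + 1 = r x) := by
      intro p hp h1 h2
      refine ⟨fun x => if x = v then p else if r x < p then r x else r x + 1, ?_, ?_, ?_⟩
      · intro x hx y hy hxy
        by_cases hxv : x = v
        · by_cases hyv : y = v
          · rw [hxv, hyv]
          · simp only [hxv, hyv, if_true, if_false] at hxy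
            split_ifs at hxy <;> omega
        · by_cases hyv : y = v
          · simp only [hxv, hyv, if_true, if_false] at hxy
            split_ifs at hxy <;> omega
          · simp only [hxv, hyv, if_false] at hxy
            apply hr1 x (mem_erase.mpr ⟨hxv, hx⟩) y (mem_erase.mpr ⟨hyv, hy⟩)
            split_ifs at hxy <;> omega
      · intro x hx
        by_cases hxv : x = v
        · simp only [hxv, if_true]; omega
        · simp only [hxv, if_false]
          have := hr2 x (mem_erase.mpr ⟨hxv, hx⟩)
          split_ifs <;> omega
      · intro x hx y hy hadj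
        by_cases hxv : x = v
        · by_cases hyv : y = v
          · rw [hxv, hyv] at hadj
            exact absurd hadj (G.loopless.irrefl _)
          · simp only [hxv, hyv, if_true, if_false]
            rw [hxv] at hadj
            have := h2 y (mem_erase.mpr ⟨hyv, hy⟩) hadj
            split_ifs <;> omega
        · by_cases hyv : y = v
          · simp only [hxv, hyv, if_true, if_false]
            rw [hyv] at hadj
            have := h2 x (mem_erase.mpr ⟨hxv, hx⟩) hadj.symm
            split_ifs <;> omega
          · simp only [hxv, hyv, if_false]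
            have hx' := mem_erase.mpr ⟨hxv, hx⟩
            have hy' := mem_erase.mpr ⟨hyv, hy⟩
            have e1 := hr3 x hx' y hy' hadj
            have e2 := h1 x hx' y hy' hadj
            have e3 := h1 y hy' x hx' hadj.symm
            split_ifs <;> omega
    rcases nb_cases hv1 with h0 | ⟨u, hu⟩
    · -- no neighbour: put `v` last
      apply key k le_rfl
      · intro x hx y hy _ h
        have := hr2 y hy
        omega
      · intro u hu hadj
        have : u ∈ nb G A v := mem_nb.mpr ⟨mem_of_mem_erase hu, hadj⟩
        rw [h0] at this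
        simp at this
    · have huA : u ∈ nb G A v := by rw [hu]; exact mem_singleton_self u
      rw [mem_nb] at huA
      have huv : u ≠ v := fun h => by
        rw [h] at huA; exact G.loopless.irrefl _ huA.2
      have hu1 : u ∈ A.erase v := mem_erase.mpr ⟨huv, huA.1⟩
      have honly : ∀ u' ∈ A.erase v, G.Adj v u' → u' = u := by
        intro u' hu' hadj
        have : u' ∈ nb G A v := mem_nb.mpr ⟨mem_of_mem_erase hu', hadj⟩
        rw [hu, mem_singleton] at this
        exact this
      by_cases hA1 : ∃ x ∈ A.erase v, G.Adj x u ∧ r x + 1 = r u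
      · obtain ⟨x, hx, hxu, hxr⟩ := hA1
        apply key (r u + 1)
        · have := hr2 u hu1
          omega
        · intro x' hx' y' hy' hadj h
          have hx'u : x' = u := hr1 x' hx' u hu1 (by omega)
          rw [hx'u] at hadj
          -- three neighbours of `u`
          have hy'x : y' ≠ x := by
            rintro rfl; omega
          have hvx : v ≠ x := fun h => by rw [← h] at hx; exact notMem_erase _ _ hx
          have hvy : v ≠ y' := fun h => by rw [← h] at hy'; exact notMem_erase _ _ hy'
          have hsub : ({v, x, y'} : Finset V) ⊆ nb G A u := by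
            intro z hz
            rw [mem_insert, mem_insert, mem_singleton] at hz
            rw [mem_nb]
            rcases hz with rfl | rfl | rfl
            · exact ⟨hv, huA.2.symm⟩
            · exact ⟨mem_of_mem_erase hx, hxu.symm⟩
            · exact ⟨mem_of_mem_erase hy', hadj⟩
          have h3 := Finset.card_le_card hsub
          rw [Finset.card_eq_three.mpr ⟨v, x, y', hvx, hvy, hy'x.symm, rfl⟩] at h3
          have := hdeg u huA.1
          omega
        · intro u' hu' hadj
          rw [honly u' hu' hadj]
          omega
      · apply key (r u)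
        · have := hr2 u hu1
          omega
        · intro x' hx' y' hy' hadj h
          have hy'u : y' = u := hr1 y' hy' u hu1 (by omega)
          rw [hy'u] at hadj
          exact hA1 ⟨x', hx', hadj, h.1⟩
        · intro u' hu' hadj
          rw [honly u' hu' hadj]
          omega

/-- homomorphism sets -/
abbrev Hm {n : ℕ} (T : SimpleGraph (Fin n)) {W : Type*} (R : W → W → Prop) : Type _ :=
  {f : Fin n → W // ∀ u v, T.Adj u v → R (f u) (f v)}

lemma path_le_of_deg_le_two {n : ℕ} (T : SimpleGraph (Fin n)) (hT : T.IsAcyclic)
    {W : Type*} [Finite W] (R : W → W → Prop)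
    (hdeg : ∀ u, (nb T Finset.univ u).card ≤ 2) :
    Nat.card (Hm (SimpleGraph.pathGraph n) R) ≤ Nat.card (Hm T R) := by
  obtain ⟨r, hr1, hr2, hr3⟩ := rank T hT n Finset.univ (by simp) (fun u _ => hdeg u)
  set e : Fin n → Fin n := fun x => ⟨r x, hr2 x (mem_univ _)⟩ with he
  have hinj : Function.Injective e := by
    intro x y hxy
    apply hr1 x (mem_univ _) y (mem_univ _)
    exact congrArg Fin.val hxy
  have hsurj : Function.Surjective e := Finite.surjective_of_injective hinj
  refine Nat.card_le_card_of_injective
    (fun f => ⟨fun x => f.1 (e x), fun u v huv => f.2 _ _ ?_⟩) ?_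
  · rw [SimpleGraph.pathGraph_adj]
    exact hr3 u (mem_univ _) v (mem_univ _) huv
  · intro f g hfg
    apply Subtype.ext
    funext x
    obtain ⟨y, rfl⟩ := hsurj x
    exact congrFun (congrArg Subtype.val hfg) y

end HL274
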