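import Pool.Agent.HL274.A5

/-! # Homomorphism counts -/

set_option autoImplicit false

namespace HL274

open Finset Classical

/-- the target whose colourings are weighted independent sets -/
def R1 (s : ℕ) (x y : Option (Fin s)) : Prop := x = none ∨ y = none

lemma IS_le_hom {n : ℕ} (T : SimpleGraph (Fin n)) (s : ℕ) :
    IS T s Finset.univ ≤ Nat.card (Hm T (R1 s)) := by
  set F : Finset (Fin n → Option (Fin s)) :=
    Finset.univ.filter (fun f => ∀ u v, T.Adj u v → R1 s (f u) (f v)) with hF
  have hcard : Nat.card (Hm T (R1 s)) = F.card := by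
    rw [hF, Nat.card_eq_fintype_card, Fintype.card_subtype]
  rw [hcard]
  have hfib := Finset.card_eq_sum_card_fiberwise (s := F) (t := (Finset.univ : Finset (Fin n)).powerset)
    (f := fun f => Finset.univ.filter (fun v => f v ≠ none)) (by
      intro f _
      simp)
  rw [hfib, IS]
  apply Finset.sum_le_sum
  intro S _
  split_ifs with hS
  · have hc : (Fintype.piFinset (fun v : Fin n => if v ∈ S then (Finset.univ.erase (none : Option (Fin s))) else {none})).card = s ^ S.card := by
      rw [Fintype.card_piFinset]
      have : ∀ v : Fin n, (if v ∈ S then (Finset.univ.erase (none : Option (Fin s))) else {none}).card = if v ∈ S then s else 1 := by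
        intro v
        split_ifs
        · rw [card_erase_of_mem (mem_univ _)]; simp
        · simp
      rw [Finset.prod_congr rfl (fun v _ => this v), Finset.prod_ite]
      simp
    rw [← hc]
    apply Finset.card_le_card
    intro f hf
    rw [Fintype.mem_piFinset] at hf
    have h1 : ∀ v ∈ S, f v ≠ none := by
      intro v hv
      have := hf v
      rw [if_pos hv, mem_erase] at this
      exact this.1
    have h2 : ∀ v, v ∉ S → f v = none := by
      intro v hv
      have := hf v
      rw [if_neg hv, mem_singleton] at this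
      exact this
    rw [mem_filter, hF, mem_filter]
    refine ⟨⟨mem_univ _, ?_⟩, ?_⟩
    · intro u v huv
      by_cases hu : u ∈ S
      · by_cases hv : v ∈ S
        · exact absurd huv (hS u hu v hv)
        · exact Or.inr (h2 v hv)
      · exact Or.inl (h2 u hu)
    · ext v
      rw [mem_filter]
      constructor
      · rintro ⟨-, h⟩
        by_contra hv
        exact h (h2 v hv)
      · intro hv
        exact ⟨mem_univ _, h1 v hv⟩
  · exact Nat.zero_le _

/-- number of walks with `n` steps starting at `v` -/
noncomputable def cnt {W : Type*} [Fintype W] (R : W → W → Prop) : ℕ → W → ℕ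
  | 0, _ => 1
  | (n+1), v => ∑ u : {u : W // R v u}, cnt R n u.1

lemma cnt_succ {W : Type*} [Fintype W] (R : W → W → Prop) (n : ℕ) (v : W) :
    cnt R (n+1) v = ∑ u : W, if R v u then cnt R n u else 0 := by
  rw [cnt, ← Finset.sum_filter]
  rw [Finset.sum_subtype (Finset.univ.filter (fun u => R v u)) (p := fun u => R v u) (by simp)]

lemma card_walks {W : Type*} [Fintype W] (R : W → W → Prop) : ∀ (n : ℕ) (v : W),
    Nat.card {f : Fin (n+1) → W // (∀ i : Fin n, R (f i.castSucc) (f i.succ)) ∧ f 0 = v} =
      cnt R n v := by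
  intro n
  induction n with
  | zero =>
    intro v
    rw [cnt, Nat.card_eq_one_iff_unique]
    constructor
    · constructor
      rintro ⟨f, -, hf⟩ ⟨g, -, hg⟩
      apply Subtype.ext
      funext x
      rw [Fin.fin_one_eq_zero x]
      exact hf.trans hg.symm
    · exact ⟨⟨fun _ => v, fun i => i.elim0, rfl⟩⟩
  | succ n ih =>
    intro v
    rw [cnt]
    have e : {f : Fin (n+1+1) → W // (∀ i : Fin (n+1), R (f i.castSucc) (f i.succ)) ∧ f 0 = v} ≃
        Σ u : {u : W // R v u}, {g : Fin (n+1) → W // (∀ i : Fin n, R (g i.castSucc) (g i.succ)) ∧ g 0 = u.1} := by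
      refine ⟨fun f => ⟨⟨f.1 1, ?_⟩, ⟨Fin.tail f.1, ?_, ?_⟩⟩,
        fun g => ⟨Fin.cons v g.2.1, ?_, ?_⟩, ?_, ?_⟩
      · have := f.2.1 0
        rw [show (0 : Fin (n+1)).castSucc = 0 from rfl, f.2.2] at this
        exact this
      · intro i
        have := f.2.1 i.succ
        exact this
      · rfl
      · intro i
        refine Fin.cases ?_ (fun j => ?_) i
        · have : R v (g.2.1 0) := by
            rw [g.2.2.2]; exact g.1.2
          exact this
        · have := g.2.2.1 j
          exact this
      · rfl
      · rintro ⟨f, h1, h2⟩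
        apply Subtype.ext
        simp only
        rw [← h2]
        exact Fin.cons_self_tail f
      · rintro ⟨⟨u, hu⟩, ⟨g, h1, h2⟩⟩
        simp only at h2
        subst h2
        rfl
    rw [Nat.card_congr e, Nat.card_sigma]
    apply Finset.sum_congr rfl
    intro u _
    exact ih u.1

lemma card_path {W : Type*} [Fintype W] (R : W → W → Prop) (hR : ∀ a b, R a b → R b a) (n : ℕ) :
    Nat.card (Hm (SimpleGraph.pathGraph (n+1)) R) = ∑ v, cnt R n v := by
  have e : Hm (SimpleGraph.pathGraph (n+1)) R ≃
      Σ v : W, {f : Fin (n+1) → W // (∀ i : Fin n, R (f i.castSucc) (f i.succ)) ∧ f 0 = v} := by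
    refine ⟨fun f => ⟨f.1 0, ⟨f.1, fun i => ?_, rfl⟩⟩, fun g => ⟨g.2.1, fun u v huv => ?_⟩, ?_, ?_⟩
    · apply f.2
      rw [SimpleGraph.pathGraph_adj]
      left
      simp
    · rw [SimpleGraph.pathGraph_adj] at huv
      rcases huv with h | h
      · have hu : (u : ℕ) < n := by have := v.2; omega
        have := g.2.2.1 ⟨u, hu⟩
        have e1 : (⟨u, hu⟩ : Fin n).castSucc = u := Fin.ext rfl
        have e2 : (⟨u, hu⟩ : Fin n).succ = v := Fin.ext h
        rw [e1, e2] at this
        exact this
      · have hv : (v : ℕ) < n := by have := u.2; omega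
        have := g.2.2.1 ⟨v, hv⟩
        have e1 : (⟨v, hv⟩ : Fin n).castSucc = v := Fin.ext rfl
        have e2 : (⟨v, hv⟩ : Fin n).succ = u := Fin.ext h
        rw [e1, e2] at this
        exact hR _ _ this
    · intro f
      rfl
    · rintro ⟨v, ⟨g, h1, h2⟩⟩
      subst h2
      rfl
  rw [Nat.card_congr e, Nat.card_sigma]
  apply Finset.sum_congr rfl
  intro v _
  exact card_walks R n v

end HL274
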