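import Pool.Agent.HL274.A6

/-! # The two building blocks of the target -/

set_option autoImplicit false

namespace HL274

open Finset Classical

lemma R1_symm (s : ℕ) : ∀ a b, R1 s a b → R1 s b a := fun _ _ h => h.symm

lemma cnt_R1 (s : ℕ) : ∀ n, cnt (R1 s) n none = b s (n+1) ∧ ∀ i, cnt (R1 s) n (some i) = b s n := by
  intro n
  induction n with
  | zero => exact ⟨rfl, fun _ => rfl⟩
  | succ n ih =>
    constructor
    · rw [cnt_succ, Fintype.sum_option]
      have h1 : ∀ u, R1 s none u := fun u => Or.inl rfl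
      simp only [h1, if_true, ih.1, ih.2]
      rw [b_add_two]
      simp
    · intro i
      rw [cnt_succ, Fintype.sum_option]
      have h1 : R1 s (some i) none := Or.inr rfl
      have h2 : ∀ j, ¬ R1 s (some i) (some j) := by
        intro j h
        rcases h with h | h <;> simp at h
      simp only [h1, h2, if_true, if_false, ih.1]
      simp

lemma path_R1 (s n : ℕ) :
    Nat.card (Hm (SimpleGraph.pathGraph (n+1)) (R1 s)) = b s (n+2) := by
  rw [card_path _ (R1_symm s), Fintype.sum_option]
  obtain ⟨h1, h2⟩ := cnt_R1 s n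
  simp only [h1, h2]
  rw [b_add_two]
  simp

/-- class sizes -/
def sz : Fin 5 → ℕ := ![40, 5, 1, 1, 61]

/-- consecutive classes -/
def nx (i j : Fin 5) : Prop := i.val + 1 = j.val ∨ j.val + 1 = i.val

instance : DecidableRel nx := fun i j => inferInstanceAs (Decidable (_ ∨ _))

/-- The blow-up of the five-vertex path. -/
abbrev V2 : Type := Σ i : Fin 5, Fin (sz i)

def R2 (x y : V2) : Prop := nx x.1 y.1

lemma R2_symm : ∀ a b, R2 a b → R2 b a := fun _ _ h => Or.symm h

/-- walk counts by class -/
def c : ℕ → Fin 5 → ℕ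
  | 0, _ => 1
  | (n+1), i => ∑ j : Fin 5, if nx i j then sz j * c n j else 0

lemma cnt_R2 : ∀ (n : ℕ) (v : V2), cnt R2 n v = c n v.1 := by
  intro n
  induction n with
  | zero => intro v; rfl
  | succ n ih =>
    intro v
    rw [cnt_succ, Fintype.sum_sigma, c]
    apply Finset.sum_congr rfl
    intro j _
    by_cases h : nx v.1 j
    · have : ∀ y : Fin (sz j), R2 v ⟨j, y⟩ := fun y => h
      simp only [this, h, if_true, ih]
      simp
    · have : ∀ y : Fin (sz j), ¬ R2 v ⟨j, y⟩ := fun y => h
      simp only [this, h, if_false]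
      simp

lemma c_le : ∀ (n : ℕ) (i : Fin 5), c n i ≤ 62 ^ n := by
  intro n
  induction n with
  | zero => intro i; exact le_refl _
  | succ n ih =>
    intro i
    rw [c]
    calc (∑ j : Fin 5, if nx i j then sz j * c n j else 0)
        ≤ ∑ j : Fin 5, (if nx i j then sz j else 0) * 62^n := by
          apply Finset.sum_le_sum
          intro j _
          split_ifs
          · exact Nat.mul_le_mul_left _ (ih j)
          · exact Nat.zero_le _
      _ = (∑ j : Fin 5, (if nx i j then sz j else 0)) * 62^n := by rw [Finset.sum_mul]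
      _ ≤ 62 * 62^n := by
          apply Nat.mul_le_mul_right
          revert i
          decide
      _ = 62^(n+1) := by rw [pow_succ, mul_comm]

lemma sum_cnt_R2 (n : ℕ) (g : ℕ → Fin 5 → ℕ) :
    ∑ v : V2, g n v.1 = ∑ i : Fin 5, sz i * g n i := by
  rw [Fintype.sum_sigma]
  apply Finset.sum_congr rfl
  intro i _
  simp

lemma path_R2 (n : ℕ) :
    Nat.card (Hm (SimpleGraph.pathGraph (n+1)) R2) = ∑ i : Fin 5, sz i * c n i := by
  rw [card_path _ R2_symm, ← sum_cnt_R2 n c]
  apply Finset.sum_congr rfl
  intro v _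
  exact cnt_R2 n v

lemma path_R2_le (n : ℕ) :
    Nat.card (Hm (SimpleGraph.pathGraph (n+1)) R2) ≤ 108 * 62^n := by
  rw [path_R2]
  calc ∑ i : Fin 5, sz i * c n i ≤ ∑ i : Fin 5, sz i * 62^n := by
        apply Finset.sum_le_sum
        intro i _
        exact Nat.mul_le_mul_left _ (c_le n i)
    _ = (∑ i : Fin 5, sz i) * 62^n := by rw [Finset.sum_mul]
    _ = 108 * 62^n := by
        congr 1

lemma path7_R2 :
    Nat.card (Hm (SimpleGraph.pathGraph 7) R2) = 418758084 := by
  rw [path_R2 6]
  decide +kernel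

end HL274
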