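import Pool.Agent.HL274.A7

/-! # The small tree and disjoint unions -/

set_option autoImplicit false

namespace HL274

open Finset

/-- parent map of the spider with legs 1,1,2,2 -/
def par : Fin 7 → Fin 7 := ![0, 0, 0, 0, 0, 1, 2]

/-- the spider with legs 1,1,2,2 -/
def T0 : SimpleGraph (Fin 7) where
  Adj u v := u ≠ v ∧ (par u = v ∨ par v = u)
  symm := ⟨fun u v h => ⟨h.1.symm, h.2.symm⟩⟩
  loopless := ⟨fun u h => h.1 rfl⟩

instance : DecidableRel T0.Adj := fun u v => inferInstanceAs (Decidable (_ ∧ _))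

lemma T0_tree : T0.IsTree := by
  rw [SimpleGraph.isTree_iff_connected_and_card]
  constructor
  · have h0 : ∀ u : Fin 7, T0.Reachable u (par u) := by
      intro u
      by_cases h : u = par u
      · rw [← h]
      · apply SimpleGraph.Adj.reachable
        exact ⟨h, Or.inl rfl⟩
    have h1 : ∀ u : Fin 7, T0.Reachable u 0 := by
      intro u
      have h2 : par (par u) = 0 := by
        revert u; decide
      have := (h0 u).trans (h0 (par u))
      rwa [h2] at this
    have : Nonempty (Fin 7) := ⟨0⟩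
    exact ⟨fun u v => (h1 u).trans (h1 v).symm⟩
  · rw [Nat.card_eq_fintype_card, Nat.card_eq_fintype_card, Fintype.card_fin]
    decide

section T0hom

variable {W : Type} [Fintype W] (R : W → W → Prop)

lemma card_N1 (v : W) : Nat.card {u : W // R v u} = cnt R 1 v := by
  classical
  rw [cnt]
  simp only [cnt]
  rw [Finset.sum_const, smul_eq_mul, mul_one, Finset.card_univ, Nat.card_eq_fintype_card]

lemma card_N2 (v : W) : Nat.card (Σ u : {u : W // R v u}, {w : W // R u.1 w}) = cnt R 2 v := by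
  classical
  rw [Nat.card_sigma, cnt]
  apply Finset.sum_congr rfl
  intro u _
  exact card_N1 R u.1

lemma hom_T0_le :
    Nat.card (Hm T0 R) ≤ ∑ v : W, (cnt R 1 v)^2 * (cnt R 2 v)^2 := by
  classical
  have hcard : Nat.card (Σ v : W, ({u : W // R v u} × {u : W // R v u}) ×
      ((Σ u : {u : W // R v u}, {w : W // R u.1 w}) × (Σ u : {u : W // R v u}, {w : W // R u.1 w}))) =
      ∑ v : W, (cnt R 1 v)^2 * (cnt R 2 v)^2 := by
    rw [Nat.card_sigma]
    apply Finset.sum_congr rfl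
    intro v _
    rw [Nat.card_prod, Nat.card_prod, Nat.card_prod, card_N1, card_N2]
    ring
  rw [← hcard]
  have a01 : T0.Adj 0 1 := by decide
  have a02 : T0.Adj 0 2 := by decide
  have a03 : T0.Adj 0 3 := by decide
  have a04 : T0.Adj 0 4 := by decide
  have a15 : T0.Adj 1 5 := by decide
  have a26 : T0.Adj 2 6 := by decide
  refine Nat.card_le_card_of_injective
    (fun f => ⟨f.1 0, (⟨f.1 3, f.2 _ _ a03⟩, ⟨f.1 4, f.2 _ _ a04⟩),
      (⟨⟨f.1 1, f.2 _ _ a01⟩, ⟨f.1 5, f.2 _ _ a15⟩⟩,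
       ⟨⟨f.1 2, f.2 _ _ a02⟩, ⟨f.1 6, f.2 _ _ a26⟩⟩)⟩) ?_
  rintro ⟨f, hf⟩ ⟨g, hg⟩ hfg
  have h0 : f 0 = g 0 := congrArg (fun z => z.1) hfg
  have h3 : f 3 = g 3 := congrArg (fun z => z.2.1.1.1) hfg
  have h4 : f 4 = g 4 := congrArg (fun z => z.2.1.2.1) hfg
  have h1 : f 1 = g 1 := congrArg (fun z => z.2.2.1.1.1) hfg
  have h5 : f 5 = g 5 := congrArg (fun z => z.2.2.1.2.1) hfg
  have h2 : f 2 = g 2 := congrArg (fun z => z.2.2.2.1.1) hfg
  have h6 : f 6 = g 6 := congrArg (fun z => z.2.2.2.2.1) hfg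
  apply Subtype.ext
  funext x
  fin_cases x
  · exact h0
  · exact h1
  · exact h2
  · exact h3
  · exact h4
  · exact h5
  · exact h6

end T0hom

lemma T0_R2 : Nat.card (Hm T0 R2) ≤ 418756184 := by
  refine le_trans (hom_T0_le R2) ?_
  have : ∀ v : V2, (cnt R2 1 v)^2 * (cnt R2 2 v)^2 = (c 1 v.1)^2 * (c 2 v.1)^2 := by
    intro v
    rw [cnt_R2, cnt_R2]
  rw [Finset.sum_congr rfl (fun v _ => this v)]
  rw [sum_cnt_R2 0 (fun _ i => (c 1 i)^2 * (c 2 i)^2)]
  decide +kernel

/-! ## Disjoint unions -/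

section DU

variable {W1 W2 : Type} (S1 : W1 → W1 → Prop) (S2 : W2 → W2 → Prop) (m : ℕ)

/-- relation of the disjoint union of `S1` and `m` copies of `S2` -/
def DU : W1 ⊕ (Fin m × W2) → W1 ⊕ (Fin m × W2) → Prop
  | Sum.inl a, Sum.inl b => S1 a b
  | Sum.inr (i, x), Sum.inr (j, y) => i = j ∧ S2 x y
  | _, _ => False

lemma DU_symm (h1 : ∀ a b, S1 a b → S1 b a) (h2 : ∀ a b, S2 a b → S2 b a) :
    ∀ a b, DU S1 S2 m a b → DU S1 S2 m b a := by
  rintro (a | ⟨i, x⟩) (b | ⟨j, y⟩) h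
  · exact h1 _ _ h
  · exact h.elim
  · exact h.elim
  · exact ⟨h.1.symm, h2 _ _ h.2⟩

variable {n : ℕ} (T : SimpleGraph (Fin n))

lemma DU_ge1 [Finite W1] [Finite W2] :
    Nat.card (Hm T S1) ≤ Nat.card (Hm T (DU S1 S2 m)) := by
  refine Nat.card_le_card_of_injective
    (fun f => ⟨fun u => Sum.inl (f.1 u), fun u v h => f.2 u v h⟩) ?_
  intro f g hfg
  apply Subtype.ext
  funext u
  have := congrFun (congrArg Subtype.val hfg) u
  exact Sum.inl_injective this

lemma DU_ge2 [Finite W1] [Finite W2] (x0 : Fin n) :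
    m * Nat.card (Hm T S2) ≤ Nat.card (Hm T (DU S1 S2 m)) := by
  have : Nat.card (Fin m × Hm T S2) = m * Nat.card (Hm T S2) := by
    rw [Nat.card_prod, Nat.card_fin]
  rw [← this]
  refine Nat.card_le_card_of_injective
    (fun p => ⟨fun u => Sum.inr (p.1, p.2.1 u), fun u v h => ⟨rfl, p.2.2 u v h⟩⟩) ?_
  rintro ⟨i, f⟩ ⟨j, g⟩ hfg
  have h1 : ∀ u, (Sum.inr (i, f.1 u) : W1 ⊕ (Fin m × W2)) = Sum.inr (j, g.1 u) :=
    fun u => congrFun (congrArg Subtype.val hfg) u
  have h2 : ∀ u, (i, f.1 u) = (j, g.1 u) := fun u => Sum.inr_injective (h1 u)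
  have hi : i = j := congrArg Prod.fst (h2 x0)
  have hf : f = g := by
    apply Subtype.ext
    funext u
    exact congrArg Prod.snd (h2 u)
  rw [hi, hf]

lemma DU_le [Finite W1] [Finite W2] (hT : T.Connected) :
    Nat.card (Hm T (DU S1 S2 m)) ≤ Nat.card (Hm T S1) + m * Nat.card (Hm T S2) := by
  have hc : Nat.card (Hm T S1 ⊕ (Fin m × Hm T S2)) =
      Nat.card (Hm T S1) + m * Nat.card (Hm T S2) := by
    rw [Nat.card_sum, Nat.card_prod, Nat.card_fin]
  rw [← hc]
  refine Nat.card_le_card_of_surjective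
    (fun p => match p with
      | Sum.inl f => ⟨fun u => Sum.inl (f.1 u), fun u v h => f.2 u v h⟩
      | Sum.inr (i, f) => ⟨fun u => Sum.inr (i, f.1 u), fun u v h => ⟨rfl, f.2 u v h⟩⟩) ?_
  rintro ⟨f, hf⟩
  obtain ⟨x0⟩ := hT.nonempty
  have hreach : ∀ (P : Fin n → Prop), (∀ u v, T.Adj u v → P u → P v) → P x0 → ∀ v, P v := by
    intro P hP h0 v
    have := (SimpleGraph.reachable_iff_reflTransGen _ _).mp (hT.preconnected x0 v)
    induction this with
    | refl => exact h0
    | tail _ hadj ih => exact hP _ _ hadj ih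
  rcases h0 : f x0 with a | ⟨i, x⟩
  · have hall : ∀ v, ∃ a, f v = Sum.inl a := by
      refine hreach (fun v => ∃ a, f v = Sum.inl a) ?_ ⟨a, h0⟩
      rintro u v huv ⟨a, ha⟩
      have := hf u v huv
      rw [ha] at this
      rcases h : f v with b | ⟨j, y⟩
      · exact ⟨b, rfl⟩
      · rw [h] at this
        exact this.elim
    choose g hg using hall
    refine ⟨Sum.inl ⟨g, fun u v huv => ?_⟩, ?_⟩
    · have := hf u v huv
      rw [hg u, hg v] at this
      exact this
    · apply Subtype.ext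
      funext u
      exact (hg u).symm
  · have hall : ∀ v, ∃ x, f v = Sum.inr (i, x) := by
      refine hreach (fun v => ∃ x, f v = Sum.inr (i, x)) ?_ ⟨x, h0⟩
      rintro u v huv ⟨a, ha⟩
      have := hf u v huv
      rw [ha] at this
      rcases h : f v with b | ⟨j, y⟩
      · rw [h] at this
        exact this.elim
      · rw [h] at this
        have hij : i = j := this.1
        exact ⟨y, by rw [hij]⟩
    choose g hg using hall
    refine ⟨Sum.inr (i, ⟨g, fun u v huv => ?_⟩), ?_⟩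
    · have := hf u v huv
      rw [hg u, hg v] at this
      exact this.2
    · apply Subtype.ext
      funext u
      exact (hg u).symm

end DU

end HL274
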